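import Pool.Agent.Q42.UIC.Ker

/-! Project UIC: further basic facts on block kernels. -/

set_option autoImplicit false

open MeasureTheory ProbabilityTheory

namespace Pool.Agent.Q184.UIC

open Pool.Agent.Q42.UIC

section K
variable {S : Type} [MeasurableSpace S] {E : Type} [MeasurableSpace E]

theorem blk_zero_apply [AddMonoid E] (b : Kernel S (E × S)) (x : S) :
    blk b 0 x = Measure.dirac ((0 : E), x) := by
  unfold blk
  rw [Kernel.deterministic_apply]

theorem endInv_zero [AddMonoid E] [MeasurableAdd₂ E] (ν : Measure S) [IsProbabilityMeasure ν]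
    (b : Kernel S (E × S)) [IsMarkovKernel b] : EndInv ν (blk b 0) := by
  unfold EndInv
  ext s hs
  have hm : Measurable (fun p : S × (E × S) => p.2.2) := by fun_prop
  have h1 : Measurable (Set.indicator s (fun _ : S => (1 : ENNReal))) := measurable_const.indicator hs
  rw [← lintegral_indicator_one hs]
  change ∫⁻ a, s.indicator (fun _ => (1 : ENNReal)) a ∂_ = _
  have h0 : Measurable (fun p : S × (E × S) => s.indicator (fun _ => (1 : ENNReal)) p.2.2) := h1.comp hm
  have h0' : Measurable (fun q : E × S => s.indicator (fun _ => (1 : ENNReal)) q.2) :=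
    h1.comp measurable_snd
  rw [lintegral_map h1 hm, Measure.lintegral_compProd h0]
  have h3 : ∀ x, ∫⁻ q : E × S, s.indicator (fun _ => (1 : ENNReal)) q.2 ∂(blk b 0 x) =
      s.indicator (fun _ => (1 : ENNReal)) x := by
    intro x
    rw [blk_zero_apply, lintegral_dirac' _ h0']
  change ∫⁻ x, ∫⁻ q : E × S, s.indicator (fun _ => (1 : ENNReal)) q.2 ∂(blk b 0 x) ∂ν = ν s
  simp only [h3]
  exact lintegral_indicator_one hs

theorem endInv_blk [AddMonoid E] [MeasurableAdd₂ E] (ν : Measure S) [IsProbabilityMeasure ν]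
    (b : Kernel S (E × S)) [IsMarkovKernel b] (hb : EndInv ν b) (n : ℕ) : EndInv ν (blk b n) := by
  induction n with
  | zero => exact endInv_zero ν b
  | succ n ih => exact endInv_conc ν _ _ ih hb

/-- the integral of a function of the end -/
theorem integral_end [Add E] [MeasurableAdd₂ E] {ν : Measure S} [IsProbabilityMeasure ν]
    {b : Kernel S (E × S)} [IsMarkovKernel b] (hb : EndInv ν b) {V : Type} [NormedAddCommGroup V]
    [NormedSpace ℝ V] {g : S → V} (hg : AEStronglyMeasurable g ν) :
    ∫ p, g p.2.2 ∂(ν ⊗ₘ b) = ∫ x, g x ∂ν := by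
  have hm : Measurable (fun p : S × (E × S) => p.2.2) := by fun_prop
  unfold EndInv at hb
  conv_rhs => rw [← hb]
  rw [integral_map hm.aemeasurable (by rw [hb]; exact hg)]

theorem integrable_end [Add E] [MeasurableAdd₂ E] {ν : Measure S} [IsProbabilityMeasure ν]
    {b : Kernel S (E × S)} [IsMarkovKernel b] (hb : EndInv ν b) {V : Type} [NormedAddCommGroup V]
    {g : S → V} (hg : Integrable g ν) : Integrable (fun p : S × (E × S) => g p.2.2) (ν ⊗ₘ b) := by
  have hm : Measurable (fun p : S × (E × S) => p.2.2) := by fun_prop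
  unfold EndInv at hb
  have h1 : Integrable g ((ν ⊗ₘ b).map (fun p : S × (E × S) => p.2.2)) := by rw [hb]; exact hg
  exact (integrable_map_measure h1.1 hm.aemeasurable).1 h1

theorem memLp_end [Add E] [MeasurableAdd₂ E] {ν : Measure S} [IsProbabilityMeasure ν]
    {b : Kernel S (E × S)} [IsMarkovKernel b] (hb : EndInv ν b) {V : Type} [NormedAddCommGroup V]
    {g : S → V} {r : ENNReal} (hg : MemLp g r ν) :
    MemLp (fun p : S × (E × S) => g p.2.2) r (ν ⊗ₘ b) := by
  have hm : Measurable (fun p : S × (E × S) => p.2.2) := by fun_prop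
  unfold EndInv at hb
  have h1 : MemLp g r ((ν ⊗ₘ b).map (fun p : S × (E × S) => p.2.2)) := by rw [hb]; exact hg
  exact (memLp_map_measure_iff h1.1 hm.aemeasurable).1 h1

/-- the law of the base block -/
theorem base_apply (Q : Kernel S S) [IsMarkovKernel Q] {f : S → ℝ} (hf : Measurable f) (x : S) :
    base Q f x = (Q x).map (fun y => (f x, y)) := by
  unfold base
  rw [Kernel.map_apply _ (by fun_prop), Kernel.prod_apply, Kernel.id_apply,
    Measure.dirac_prod, Measure.map_map (by fun_prop) (by fun_prop)]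
  rfl

theorem integral_base (Q : Kernel S S) [IsMarkovKernel Q] {f : S → ℝ} (hf : Measurable f) (x : S)
    {V : Type} [NormedAddCommGroup V] [NormedSpace ℝ V] (F : ℝ × S → V) (hF : StronglyMeasurable F) :
    ∫ q, F q ∂(base Q f x) = ∫ y, F (f x, y) ∂(Q x) := by
  rw [base_apply Q hf, integral_map (by fun_prop) hF.aestronglyMeasurable]

/-- the law of the concatenated block: integrals -/
theorem integral_compProd_conc {V : Type} [NormedAddCommGroup V] [NormedSpace ℝ V]
    [Add E] [MeasurableAdd₂ E] (ν : Measure S) [IsProbabilityMeasure ν]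
    (b c : Kernel S (E × S)) [IsMarkovKernel b] [IsMarkovKernel c] (F : S × (E × S) → V)
    (hF : Integrable F (ν ⊗ₘ conc b c)) :
    ∫ p, F p ∂(ν ⊗ₘ conc b c) = ∫ p, ∫ q, F (p.1, (p.2.1 + q.1, q.2)) ∂(c p.2.2) ∂(ν ⊗ₘ b) := by
  have hm : Measurable (fun p : (S × (E × S)) × (E × S) => (p.1.1, (p.1.2.1 + p.2.1, p.2.2))) := by
    fun_prop
  rw [compProd_conc] at hF ⊢
  rw [integral_map hm.aemeasurable hF.1]
  have h2 := (integrable_map_measure hF.1 hm.aemeasurable).1 hF
  exact (Measure.integral_compProd h2)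

theorem integrable_compProd_conc {V : Type} [NormedAddCommGroup V]
    [Add E] [MeasurableAdd₂ E] (ν : Measure S) [IsProbabilityMeasure ν]
    (b c : Kernel S (E × S)) [IsMarkovKernel b] [IsMarkovKernel c] (F : S × (E × S) → V)
    (hF : StronglyMeasurable F) : Integrable F (ν ⊗ₘ conc b c) ↔
      Integrable (fun p : (S × (E × S)) × (E × S) => F (p.1.1, (p.1.2.1 + p.2.1, p.2.2)))
        ((ν ⊗ₘ b) ⊗ₘ (c.comap (fun p : S × (E × S) => p.2.2) (by fun_prop))) := by
  have hm : Measurable (fun p : (S × (E × S)) × (E × S) => (p.1.1, (p.1.2.1 + p.2.1, p.2.2))) := by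
    fun_prop
  rw [compProd_conc]
  exact integrable_map_measure hF.aestronglyMeasurable hm.aemeasurable

end K

end Pool.Agent.Q184.UIC
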