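import Pool.Agent.Q184.UIC.Base

/-! Project UIC: the transition operator and the moments of the blocks. -/

set_option autoImplicit false

open MeasureTheory ProbabilityTheory

namespace Pool.Agent.Q184.UIC

open Pool.Agent.Q42.UIC

section K
variable {S : Type} [MeasurableSpace S]

/-- the transition operator -/
noncomputable def TT (Q : Kernel S S) (h : S → ℝ) : S → ℝ := fun y => ∫ z, h z ∂(Q y)

theorem TT_meas (Q : Kernel S S) [IsMarkovKernel Q] {h : S → ℝ} (hh : Measurable h) :
    Measurable (TT Q h) :=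
  (hh.stronglyMeasurable.integral_kernel (κ := Q)).measurable

theorem TT_iter_meas (Q : Kernel S S) [IsMarkovKernel Q] (n : ℕ) {h : S → ℝ} (hh : Measurable h) :
    Measurable ((TT Q)^[n] h) := by
  induction n generalizing h with
  | zero => exact hh
  | succ n ih => rw [Function.iterate_succ_apply]; exact ih (TT_meas Q hh)

theorem TT_bdd (Q : Kernel S S) [IsMarkovKernel Q] {h : S → ℝ} {C : ℝ} (hC : ∀ x, |h x| ≤ C) (x : S) :
    |TT Q h x| ≤ C := by
  unfold TT
  have := norm_integral_le_of_norm_le_const (μ := Q x) (f := h) (C := C)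
    (Filter.Eventually.of_forall fun y => by rw [Real.norm_eq_abs]; exact hC y)
  simpa using this

theorem snd_law {ν : Measure S} [IsProbabilityMeasure ν] {Q : Kernel S S} [IsMarkovKernel Q]
    (hν : ν.bind Q = ν) : (ν ⊗ₘ Q).map Prod.snd = ν := by
  have := Measure.snd_compProd ν Q
  rw [Measure.snd] at this
  rw [this]
  exact hν

theorem fst_law (ν : Measure S) [IsProbabilityMeasure ν] (Q : Kernel S S) [IsMarkovKernel Q] :
    (ν ⊗ₘ Q).map Prod.fst = ν := by
  have := Measure.fst_compProd ν Q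
  rwa [Measure.fst] at this

theorem integrable_snd {ν : Measure S} [IsProbabilityMeasure ν] {Q : Kernel S S} [IsMarkovKernel Q]
    (hν : ν.bind Q = ν) {h : S → ℝ} (hh : Integrable h ν) :
    Integrable (fun p : S × S => h p.2) (ν ⊗ₘ Q) := by
  have h1 : Integrable h ((ν ⊗ₘ Q).map Prod.snd) := by rw [snd_law hν]; exact hh
  exact (integrable_map_measure h1.1 measurable_snd.aemeasurable).1 h1

theorem ae_integrable {ν : Measure S} [IsProbabilityMeasure ν] {Q : Kernel S S} [IsMarkovKernel Q]
    (hν : ν.bind Q = ν) {h : S → ℝ} (hh : Integrable h ν) : ∀ᵐ x ∂ν, Integrable h (Q x) := by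
  have h1 := (Measure.integrable_compProd_iff (integrable_snd hν hh).1).1 (integrable_snd hν hh)
  exact h1.1

theorem integral_TT {ν : Measure S} [IsProbabilityMeasure ν] {Q : Kernel S S} [IsMarkovKernel Q]
    (hν : ν.bind Q = ν) {h : S → ℝ} (hh : Integrable h ν) : ∫ x, TT Q h x ∂ν = ∫ x, h x ∂ν := by
  have h1 := Measure.integral_compProd (integrable_snd hν hh)
  unfold TT
  have h2 : ∫ p : S × S, h p.2 ∂(ν ⊗ₘ Q) = ∫ x, h x ∂ν := by
    conv_rhs => rw [← snd_law hν]
    rw [integral_map measurable_snd.aemeasurable (by rw [snd_law hν]; exact hh.1)]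
  rw [← h2, h1]

theorem TT_integrable {ν : Measure S} [IsProbabilityMeasure ν] {Q : Kernel S S} [IsMarkovKernel Q]
    (hν : ν.bind Q = ν) {h : S → ℝ} (hm : Measurable h) (hh : Integrable h ν) :
    Integrable (TT Q h) ν := by
  have h1 := ((Measure.integrable_compProd_iff (integrable_snd hν hh).1).1 (integrable_snd hν hh)).2
  have h2 : AEStronglyMeasurable (TT Q h) ν := (TT_meas Q hm).aestronglyMeasurable
  refine h1.mono' h2 (Filter.Eventually.of_forall fun x => ?_)
  exact norm_integral_le_integral_norm _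

theorem sq_TT_le {ν : Measure S} [IsProbabilityMeasure ν] {h : S → ℝ}
    (hh : Integrable h ν) (hh2 : Integrable (fun x => h x ^ 2) ν) :
    (∫ x, h x ∂ν) ^ 2 ≤ ∫ x, h x ^ 2 ∂ν := by
  have h1 : 0 ≤ ∫ x, (h x - ∫ y, h y ∂ν) ^ 2 ∂ν := integral_nonneg fun x => sq_nonneg _
  set m := ∫ y, h y ∂ν with hm
  have h2 : ∀ x, (h x - m) ^ 2 = h x ^ 2 - 2 * m * h x + m ^ 2 := by intro x; ring
  simp only [h2] at h1
  have e1 : Integrable (fun x => h x ^ 2 - 2 * m * h x) ν := hh2.sub (hh.const_mul _)
  rw [integral_add e1 (integrable_const _),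
    integral_sub hh2 (hh.const_mul _), integral_const_mul, ← hm] at h1
  simp at h1
  nlinarith

theorem TT_sq {ν : Measure S} [IsProbabilityMeasure ν] {Q : Kernel S S} [IsMarkovKernel Q]
    (hν : ν.bind Q = ν) {h : S → ℝ} (hm : Measurable h) (hh : MemLp h 2 ν) :
    MemLp (TT Q h) 2 ν ∧ ∫ x, TT Q h x ^ 2 ∂ν ≤ ∫ x, h x ^ 2 ∂ν := by
  have hi : Integrable h ν := hh.integrable (by norm_num)
  have hi2 : Integrable (fun x => h x ^ 2) ν := hh.integrable_sq
  have h1 := ae_integrable hν hi
  have h2 := ae_integrable hν hi2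
  have h3 : ∀ᵐ x ∂ν, TT Q h x ^ 2 ≤ TT Q (fun y => h y ^ 2) x := by
    filter_upwards [h1, h2] with x hx hx2
    exact sq_TT_le hx hx2
  have h4 : Integrable (TT Q (fun y => h y ^ 2)) ν := TT_integrable hν (hm.pow_const 2) hi2
  have h5 : Integrable (fun x => TT Q h x ^ 2) ν := by
    refine h4.mono' ((TT_meas Q hm).pow_const 2).aestronglyMeasurable ?_
    filter_upwards [h3] with x hx
    rw [Real.norm_eq_abs, abs_of_nonneg (sq_nonneg _)]
    exact hx
  refine ⟨(memLp_two_iff_integrable_sq (TT_meas Q hm).aestronglyMeasurable).2 h5, ?_⟩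
  refine (integral_mono_ae h5 h4 h3).trans (le_of_eq ?_)
  exact integral_TT hν hi2

theorem TT_iter_sq {ν : Measure S} [IsProbabilityMeasure ν] {Q : Kernel S S} [IsMarkovKernel Q]
    (hν : ν.bind Q = ν) (n : ℕ) {h : S → ℝ} (hm : Measurable h) (hh : MemLp h 2 ν) :
    MemLp ((TT Q)^[n] h) 2 ν := by
  induction n generalizing h with
  | zero => exact hh
  | succ n ih =>
    rw [Function.iterate_succ_apply]
    exact ih (TT_meas Q hm) (TT_sq hν hm hh).1

variable {ν : Measure S} [IsProbabilityMeasure ν] {Q : Kernel S S} [IsMarkovKernel Q] {f : S → ℝ}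

/-- Square integrability of the block sums. -/
theorem mem_blk2 (hν : ν.bind Q = ν) (hf : Measurable f) (hf2 : MemLp f 2 ν) (n : ℕ) :
    MemLp (fun p : S × (ℝ × S) => p.2.1) 2 (ν ⊗ₘ blk (base Q f) n) := by
  have := base_markov Q f hf
  induction n with
  | zero =>
    have h1 : (fun p : S × (ℝ × S) => p.2.1) =ᵐ[ν ⊗ₘ blk (base Q f) 0] fun _ => 0 := by
      have hms : MeasurableSet {p : S × (ℝ × S) | p.2.1 = 0} :=
        measurableSet_eq_fun (by fun_prop) (by fun_prop)
      refine (Measure.ae_compProd_iff hms).2 (Filter.Eventually.of_forall fun x => ?_)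
      have hms' : MeasurableSet {p : ℝ × S | p.1 = 0} :=
        measurableSet_eq_fun (by fun_prop) (by fun_prop)
      rw [blk_zero_apply]
      exact (ae_dirac_iff hms').2 rfl
    exact (MemLp.zero' (p := 2)).ae_eq h1.symm
  | succ n ih =>
    have hE := endInv_blk ν (base Q f) (endInv_base ν Q f hf hν) n
    have hm : Measurable (fun p : (S × (ℝ × S)) × (ℝ × S) => (p.1.1, (p.1.2.1 + p.2.1, p.2.2))) := by
      fun_prop
    change MemLp (fun p : S × (ℝ × S) => p.2.1) 2 (ν ⊗ₘ conc (blk (base Q f) n) (base Q f))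
    have hm2 : Measurable (fun p : S × (ℝ × S) => p.2.1) := by fun_prop
    rw [compProd_conc]
    refine (memLp_map_measure_iff hm2.aestronglyMeasurable hm.aemeasurable).2 ?_
    set π := (ν ⊗ₘ blk (base Q f) n) ⊗ₘ
      ((base Q f).comap (fun p : S × (ℝ × S) => p.2.2) (by fun_prop)) with hπ
    have hfst : MeasurePreserving (Prod.fst : (S × (ℝ × S)) × (ℝ × S) → _) π
        (ν ⊗ₘ blk (base Q f) n) := by
      refine ⟨measurable_fst, ?_⟩
      have := Measure.fst_compProd (ν ⊗ₘ blk (base Q f) n)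
        ((base Q f).comap (fun p : S × (ℝ × S) => p.2.2) (by fun_prop))
      rwa [Measure.fst] at this
    have h1 : MemLp (fun p : (S × (ℝ × S)) × (ℝ × S) => p.1.2.1) 2 π :=
      ih.comp_measurePreserving hfst
    have h2 : MemLp (fun p : (S × (ℝ × S)) × (ℝ × S) => f p.1.2.2) 2 π :=
      (memLp_end hE hf2).comp_measurePreserving hfst
    have h3 : (fun p : (S × (ℝ × S)) × (ℝ × S) => f p.1.2.2) =ᵐ[π] fun p => p.2.1 := by
      have hms : MeasurableSet {p : (S × (ℝ × S)) × (ℝ × S) | f p.1.2.2 = p.2.1} :=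
        measurableSet_eq_fun (by fun_prop) (by fun_prop)
      refine (Measure.ae_compProd_iff hms).2 (Filter.Eventually.of_forall fun p => ?_)
      rw [Kernel.comap_apply, base_apply Q hf]
      have hms' : MeasurableSet {q : ℝ × S | f p.2.2 = q.1} :=
        measurableSet_eq_fun (by fun_prop) (by fun_prop)
      exact (ae_map_iff (by fun_prop) hms').2 (Filter.Eventually.of_forall fun y => rfl)
    exact h1.add (h2.ae_eq h3)

theorem integrable_blk (hν : ν.bind Q = ν) (hf : Measurable f) (hf2 : MemLp f 2 ν) (n : ℕ) :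
    Integrable (fun p : S × (ℝ × S) => p.2.1) (ν ⊗ₘ blk (base Q f) n) := by
  have := base_markov Q f hf
  exact (mem_blk2 hν hf hf2 n).integrable (by norm_num)

theorem ae_integrable_blk (hν : ν.bind Q = ν) (hf : Measurable f) (hf2 : MemLp f 2 ν) (n : ℕ) :
    ∀ᵐ x ∂ν, Integrable (fun q : ℝ × S => q.1) (blk (base Q f) n x) := by
  have := base_markov Q f hf
  have h := integrable_blk hν hf hf2 n
  exact ((Measure.integrable_compProd_iff h.1).1 h).1

theorem ae_integrable_end (hν : ν.bind Q = ν) (hf : Measurable f) (n : ℕ) {g : S → ℝ}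
    (hg : Integrable g ν) : ∀ᵐ x ∂ν, Integrable (fun q : ℝ × S => g q.2) (blk (base Q f) n x) := by
  have := base_markov Q f hf
  have h := integrable_end (endInv_blk ν (base Q f) (endInv_base ν Q f hf hν) n) hg
  exact ((Measure.integrable_compProd_iff h.1).1 h).1

/-- the law of the end state -/
theorem end_iter (hν : ν.bind Q = ν) (hf : Measurable f) (n : ℕ) {g : S → ℝ} (hgm : Measurable g)
    (hg : Integrable g ν) : ∀ᵐ x ∂ν, ∫ q, g q.2 ∂(blk (base Q f) n x) = (TT Q)^[n] g x := by
  have := base_markov Q f hf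
  induction n generalizing g with
  | zero =>
    refine Filter.Eventually.of_forall fun x => ?_
    have h3 : StronglyMeasurable (fun q : ℝ × S => g q.2) :=
      (hgm.comp measurable_snd).stronglyMeasurable
    rw [blk_zero_apply, integral_dirac' (fun q : ℝ × S => g q.2) _ h3]
    rfl
  | succ n ih =>
    filter_upwards [ae_integrable_end hν hf (n + 1) hg, ih (TT_meas Q hgm) (TT_integrable hν hgm hg)]
      with x hx hx2
    rw [Function.iterate_succ_apply, ← hx2]
    change ∫ q, g q.2 ∂(conc (blk (base Q f) n) (base Q f) x) = _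
    rw [integral_conc _ _ _ (fun q : ℝ × S => g q.2) hx]
    refine integral_congr_ae (Filter.Eventually.of_forall fun q => ?_)
    exact integral_base Q hf q.2 (fun q : ℝ × S => g q.2) (hgm.comp measurable_snd).stronglyMeasurable

/-- the forward drift -/
theorem drift_iter (hν : ν.bind Q = ν) (hf : Measurable f) (hf2 : MemLp f 2 ν) (n : ℕ) :
    ∀ᵐ x ∂ν, ∫ q, q.1 ∂(blk (base Q f) n x) = ∑ k ∈ Finset.range n, (TT Q)^[k] f x := by
  have := base_markov Q f hf
  have hfi : Integrable f ν := hf2.integrable (by norm_num)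
  induction n with
  | zero =>
    refine Filter.Eventually.of_forall fun x => ?_
    have h3 : StronglyMeasurable (fun q : ℝ × S => q.1) := measurable_fst.stronglyMeasurable
    rw [blk_zero_apply, integral_dirac' (fun q : ℝ × S => q.1) _ h3]
    simp
  | succ n ih =>
    filter_upwards [ih, ae_integrable_blk hν hf hf2 (n + 1), ae_integrable_blk hν hf hf2 n,
      ae_integrable_end hν hf n hfi, end_iter hν hf n hf hfi] with x h1 h2 h3 h4 h5
    rw [Finset.sum_range_succ, ← h1, ← h5]
    change ∫ q, q.1 ∂(conc (blk (base Q f) n) (base Q f) x) = _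
    rw [integral_conc _ _ _ (fun q : ℝ × S => q.1) h2, ← integral_add h3 h4]
    refine integral_congr_ae (Filter.Eventually.of_forall fun q => ?_)
    have h6 := integral_base Q hf q.2 (fun r : ℝ × S => q.1 + r.1)
      (measurable_const.add measurable_fst).stronglyMeasurable
    simp only [integral_const, probReal_univ, one_smul] at h6
    exact h6

/-- Square norm in `L²` -/
theorem norm_toLp_sq {h : S → ℝ} (hh : MemLp h 2 ν) : ‖hh.toLp h‖ ^ 2 = ∫ x, h x ^ 2 ∂ν := by
  rw [← real_inner_self_eq_norm_sq, L2.inner_def]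
  refine integral_congr_ae ?_
  filter_upwards [hh.coeFn_toLp] with x hx
  rw [hx]
  simp [sq]

theorem mink {n : ℕ} {g : ℕ → S → ℝ} (hg : ∀ i, MemLp (g i) 2 ν) :
    ∫ x, (∑ i ∈ Finset.range n, g i x) ^ 2 ∂ν ≤
      (∑ i ∈ Finset.range n, Real.sqrt (∫ x, g i x ^ 2 ∂ν)) ^ 2 := by
  have h1 : MemLp (fun x => ∑ i ∈ Finset.range n, g i x) 2 ν :=
    memLp_finsetSum _ fun i _ => hg i
  rw [← norm_toLp_sq h1]
  have h2 : h1.toLp _ = ∑ i ∈ Finset.range n, (hg i).toLp (g i) := by
    apply Lp.ext
    refine h1.coeFn_toLp.trans ?_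
    have h3 : ∀ i, ((hg i).toLp (g i) : S → ℝ) =ᵐ[ν] g i := fun i => (hg i).coeFn_toLp
    have h4 := Lp.coeFn_finsetSum (Finset.range n) (fun i => (hg i).toLp (g i))
    refine Filter.EventuallyEq.symm ?_
    refine h4.trans ?_
    filter_upwards [ae_all_iff.2 h3] with x hx
    rw [Finset.sum_apply]
    exact Finset.sum_congr rfl fun i _ => hx i
  have h3 : ‖h1.toLp _‖ ≤ ∑ i ∈ Finset.range n, Real.sqrt (∫ x, g i x ^ 2 ∂ν) := by
    rw [h2]
    refine (norm_sum_le _ _).trans (Finset.sum_le_sum fun i _ => ?_)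
    rw [← norm_toLp_sq (hg i), Real.sqrt_sq (norm_nonneg _)]
  exact pow_le_pow_left₀ (norm_nonneg _) h3 2

end K

end Pool.Agent.Q184.UIC
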